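import Mathlib

/-!
# A place with large values

If the heights of elements of a finitely generated subring are large infinitely often, then one
absolute value is large infinitely often.
-/

set_option autoImplicit false

namespace Pool.Agent.Helper52.RR

open Height Height.AdmissibleAbsValues Real

variable {K : Type*} [Field K] [AdmissibleAbsValues K]

/-- The nonarchimedean absolute values which are large at one of the generators. -/
def bad (S : Finset K) : Set (nonarchAbsVal (K := K)) := {v | ∃ s ∈ S, 1 < v.1 s}

theorem bad_finite (S : Finset K) : (bad S).Finite := by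
  classical
  have h1 : bad S ⊆ ⋃ s ∈ S.filter (fun s => s ≠ 0),
      Function.mulSupport (fun v : nonarchAbsVal (K := K) => v.1 s) := by
    rintro v ⟨s, hs, hv⟩
    have hs0 : s ≠ 0 := by
      rintro rfl
      rw [map_zero] at hv
      linarith
    simp only [Set.mem_iUnion]
    exact ⟨s, Finset.mem_filter.2 ⟨hs, hs0⟩, by
      rw [Function.mem_mulSupport]
      exact hv.ne'⟩
  refine (Set.Finite.biUnion (Finset.finite_toSet _) fun s hs => ?_).subset h1
  exact hasFiniteMulSupport (Finset.mem_filter.1 hs).2

theorem le_one_of_not_bad {S : Finset K} {v : nonarchAbsVal (K := K)} (hv : v ∉ bad S) {x : K}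
    (hx : x ∈ Subring.closure (S : Set K)) : v.1 x ≤ 1 := by
  have hna : IsNonarchimedean v.1 := isNonarchimedean v.1 v.2
  induction hx using Subring.closure_induction with
  | mem s hs =>
    by_contra hcon
    exact hv ⟨s, hs, not_le.1 hcon⟩
  | zero => rw [map_zero]; exact zero_le_one
  | one => rw [map_one]
  | add a b _ _ ha hb => exact (hna a b).trans (max_le ha hb)
  | neg a _ ha => rw [AbsoluteValue.map_neg]; exact ha
  | mul a b _ _ ha hb =>
    rw [map_mul]
    exact mul_le_one₀ ha (AbsoluteValue.nonneg _ _) hb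

/-- The height of an element of the ring, as a sum over a fixed finite list of absolute values. -/
theorem height_eq (S : Finset K) : ∃ L : List (AbsoluteValue K ℝ),
    ∀ x ∈ Subring.closure (S : Set K), logHeight₁ x = (L.map fun v => log⁺ (v x)).sum := by
  classical
  obtain ⟨L1, hL1⟩ : ∃ L : List (AbsoluteValue K ℝ), (L : Multiset (AbsoluteValue K ℝ)) =
    archAbsVal (K := K) := ⟨_, Multiset.coe_toList _⟩
  refine ⟨L1 ++ (bad_finite S).toFinset.toList.map (fun v => v.1), fun x hx => ?_⟩
  rw [logHeight₁_eq, ← hL1, List.map_append, List.sum_append]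
  congr 1
  · rw [finsum_eq_sum_of_support_subset (s := (bad_finite S).toFinset)]
    · rw [List.map_map, ← Finset.sum_map_toList]
      rfl
    · intro v hv
      rw [Function.mem_support] at hv
      by_contra hcon
      rw [Set.Finite.coe_toFinset] at hcon
      apply hv
      rw [posLog_eq_zero_iff, abs_of_nonneg (AbsoluteValue.nonneg _ _)]
      exact le_one_of_not_bad hcon hx

/-- **A place with large values.** -/
theorem exists_place {ι : Type*} (S : Finset K) (x : ℕ → ι → K)
    (hx : ∀ n i, x n i ∈ Subring.closure (S : Set K)) (c : ℕ → ℝ) (hc : ∀ n, 0 < c n)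
    {ε : ℝ} (hε : 0 < ε) (h : {n | ∃ i, ε * c n ≤ logHeight₁ (x n i)}.Infinite) :
    ∃ v : AbsoluteValue K ℝ, ∃ ε' : ℝ, 0 < ε' ∧
      {n | ∃ i, ε' * c n ≤ Real.log (v (x n i))}.Infinite := by
  classical
  obtain ⟨L, hL⟩ := height_eq S
  -- the number of absolute values
  have hM : ∀ n, (∃ i, ε * c n ≤ logHeight₁ (x n i)) → ∃ v ∈ L.toFinset, ∃ i,
      ε / (L.length + 1) * c n ≤ Real.log (v (x n i)) := by
    rintro n ⟨i, hi⟩
    by_contra hcon
    push Not at hcon
    have hpos : 0 < ε / (L.length + 1) * c n := mul_pos (by positivity) (hc n)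
    have h1 : ∀ v ∈ L, log⁺ (v (x n i)) ≤ ε / (L.length + 1) * c n := by
      intro v hv
      have h2 := hcon v (List.mem_toFinset.2 hv) i
      rw [posLog_def]
      exact max_le hpos.le h2.le
    have h2 : (L.map fun v => log⁺ (v (x n i))).sum ≤
        L.length • (ε / (L.length + 1) * c n) := by
      have := List.sum_le_card_nsmul (L.map fun v => log⁺ (v (x n i)))
        (ε / (L.length + 1) * c n) (by
          intro y hy
          obtain ⟨v, hv, rfl⟩ := List.mem_map.1 hy
          exact h1 v hv)
      rwa [List.length_map] at this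
    rw [← hL _ (hx n i), nsmul_eq_mul] at h2
    have h3 : (L.length : ℝ) * (ε / (L.length + 1) * c n) < ε * c n := by
      have h4 : (L.length : ℝ) * (ε / (L.length + 1) * c n) =
          (L.length / (L.length + 1)) * (ε * c n) := by ring
      rw [h4]
      have h5 : (L.length : ℝ) / (L.length + 1) < 1 := by
        rw [div_lt_one (by positivity)]
        linarith
      have h6 : 0 < ε * c n := mul_pos hε (hc n)
      nlinarith
    linarith
  by_contra hcon
  push Not at hcon
  have hfin : (⋃ v ∈ L.toFinset, {n | ∃ i, ε / (L.length + 1) * c n ≤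
      Real.log (v (x n i))}).Finite := by
    refine Set.Finite.biUnion (Finset.finite_toSet _) fun v _ => ?_
    exact hcon v _ (by positivity)
  refine h (hfin.subset fun n hn => ?_)
  obtain ⟨v, hv, i, hi⟩ := hM n hn
  simp only [Set.mem_iUnion]
  exact ⟨v, hv, i, hi⟩

/-- **Heights are bounded by values.** -/
theorem height_bound (A : Finset K) (a : ℕ → K) (ha : ∀ n, a n ∈ Algebra.adjoin ℤ (A : Set K))
    (g : ℕ → ℝ) (_hg : ∀ n, 0 ≤ g n)
    (h : ∀ v : AbsoluteValue K ℝ, ∃ C : ℝ, ∀ n, Real.log (max 1 (v (a n))) ≤ C * g n) :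
    ∃ C : ℝ, ∀ n, logHeight₁ (a n) ≤ C * g n := by
  classical
  obtain ⟨L, hL⟩ := height_eq A
  have hmem : ∀ n, a n ∈ Subring.closure (A : Set K) := by
    intro n
    have h1 := ha n
    have h2 : Algebra.adjoin ℤ (A : Set K) ≤ subalgebraOfSubring (Subring.closure (A : Set K)) := by
      apply Algebra.adjoin_le
      exact Subring.subset_closure
    exact h2 h1
  have key : ∀ L : List (AbsoluteValue K ℝ), ∃ C : ℝ, ∀ n,
      (L.map fun v => log⁺ (v (a n))).sum ≤ C * g n := by
    intro L
    induction L with
    | nil => exact ⟨0, fun n => by simp⟩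
    | cons v L ih =>
      obtain ⟨C, hC⟩ := ih
      obtain ⟨C', hC'⟩ := h v
      refine ⟨C' + C, fun n => ?_⟩
      rw [List.map_cons, List.sum_cons, add_mul]
      refine add_le_add ?_ (hC n)
      rw [posLog_eq_log_max_one (AbsoluteValue.nonneg _ _)]
      exact hC' n
  obtain ⟨C, hC⟩ := key L
  exact ⟨C, fun n => by rw [hL _ (hmem n)]; exact hC n⟩

end Pool.Agent.Helper52.RR
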